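import Pool.Agent.H94.G4T.M156
import Pool.Agent.H94.G4T.M73

/-!
# G4 R SmoT: the sheets are smooth in the directions of `E`, with continuous jets

`y₁ ∈ T`, `y₁ ∉ D`, a straight chart `χ` with `Cap` at the unit vector `v`, `pr v = φ y₁` (`exists_cap_at`), `f y = (χ.q (nv v (φ y))) 0` on `T ∩ ball y₁ r`.
All divided differences of `nv v' (φ (y + s ν))` for near nodes are bounded, uniformly in `y ∈ T` over `Gd D δ'` (`ddb`), those of `f` by `dd_comp_le`; `bdt_of_loc`, `bdt_jet` (`R/BdT`) give the jets `w j`.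
-/

set_option autoImplicit false

open Topology Filter Metric Finset

namespace Pool.Agent.G4.R

open Pool.Agent.H36.BP (EN fs wd)
open Pool.Agent.H14.PP (IsCone CurveAt Tan)
open Pool.Agent.H62.EF (MN pr)
open Pool.Agent.AD (Vd Chart Charts IsGerm)
open Pool.Agent.TG
open Pool.Agent.G3
open Pool.Agent.G3.R
open Pool.Agent.G3.C (Gc HP nv nd nv_pr)
open Pool.Agent.G3.A (Ba Hc Dec Sepa Tht Frm NL Lm CRL Tb ToE CE Sht)
open Pool.Agent.G4.A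
open Pool.Agent.G4.C (SmoT BoxT cy)

/-- the divided differences for sets of nodes near a point -/
private theorem smt_local {g : ℝ → ℂ} {r C : ℝ} {m : ℕ} {P : ℝ → Prop} (h : ∀ σ : ℕ → ℝ, Nod m σ r → (∀ i ≤ m, P (σ i)) → ‖dd m σ g‖ ≤ C) {S : Finset ℝ}
    (hS : ∀ a ∈ S, |a| ≤ r) (hP : ∀ a ∈ S, P a) (hcard : S.card = m + 1) : ‖Pool.Agent.G3.A.dd S g‖ ≤ C := by
  classical
  set σ : ℕ → ℝ := fun i => if hi : i < m + 1 then S.orderEmbOfFin hcard ⟨i, hi⟩ else 0 with hσ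
  have hσi : ∀ (i : ℕ) (hi : i < m + 1), σ i = S.orderEmbOfFin hcard ⟨i, hi⟩ := fun i hi => by
    rw [hσ]
    exact dif_pos hi
  have hnod : Nod m σ r := by
    refine ⟨fun i hi j hj hij => ?_, fun i hi => ?_⟩
    · rw [hσi i (by omega), hσi j (by omega)] at hij
      have h1 := (S.orderEmbOfFin hcard).injective hij
      exact Fin.mk.inj_iff.1 h1
    · rw [hσi i (by omega)]
      exact hS _ (S.orderEmbOfFin_mem hcard _)
  have h1 := h σ hnod (fun i hi => by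
    rw [hσi i (by omega)]
    exact hP _ (S.orderEmbOfFin_mem hcard _))
  rw [dd_eq hnod.inj] at h1
  have h2 : (range (m + 1)).image σ = S := by
    ext x
    rw [Finset.mem_image]
    constructor
    · rintro ⟨i, hi, rfl⟩
      rw [Finset.mem_range] at hi
      rw [hσi i hi]
      exact S.orderEmbOfFin_mem hcard _
    · intro hx
      have h3 : x ∈ Set.range (S.orderEmbOfFin hcard) := by
        rw [S.range_orderEmbOfFin hcard]
        exact hx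
      obtain ⟨i, rfl⟩ := h3
      exact ⟨i, Finset.mem_range.2 i.2, hσi i i.2⟩
  rwa [h2] at h1

variable {N k : ℕ} {X : Set (EN N)} {Λ : AddSubgroup (Vd (k + 1))} {u : EN N → Vd (k + 1)} {D B Bad : Set (Vd (k + 1))} {a b w : Vd (k + 1)} {E : Submodule ℝ (Vd (k + 1))}
  {SS : Set (Vd (k + 1) → MN N)} {Γ : AddSubgroup (Vd (k + 1))} {J rW : ℕ} {W : Fin rW → Vd (k + 1) →L[ℂ] ℂ} {α : Fin J → VForm X Λ u} {c₀ C₀ ρ δ : ℝ}

private theorem smt_q {χ : Chart (k + 2) X} {v x : EN N} (h : inner ℂ v x ≠ (0 : ℂ)) (hx : x ∈ χ.U) : χ.q (nv v (pr x)) = χ.q x := by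
  rw [nv_pr h, χ.q_smul x hx _ (inv_ne_zero h)]

/-- the bounds for all orders `≤ m` -/
private theorem smt_ddb (S : DA X Λ u D B Bad a Γ W α c₀ C₀ ρ δ) (hS : Shs X Λ u D a b E SS) {ν : Vd (k + 1)} (hν : ν ∈ E) {δ' : ℝ} (hδ' : 0 < δ') (m : ℕ) :
    ∃ r C : ℝ, 0 < r ∧ 0 ≤ C ∧ ∀ j ≤ m, ∀ φ ∈ SS, ∀ y ∈ Tb b E, y ∈ Gd D δ' → ∀ v : EN N, ‖v‖ = 1 → pr v = φ y → ∀ σ : ℕ → ℝ, Nod m σ r →
      ‖dd j σ fun s : ℝ => nv v (φ (y + (s : ℂ) • ν))‖ ≤ C := by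
  induction m with
  | zero =>
    obtain ⟨r, C, hr, hC, h⟩ := ddb S hS hν 0 δ' hδ'
    refine ⟨r, C, hr, hC, fun j hj φ hφ y hy hyD v hv hvy σ hσ => ?_⟩
    obtain rfl : j = 0 := Nat.le_zero.1 hj
    exact h φ hφ y hy hyD v hv hvy σ hσ
  | succ m ih =>
    obtain ⟨r, C, hr, hC, h⟩ := ih
    obtain ⟨r', C', hr', hC', h'⟩ := ddb S hS hν (m + 1) δ' hδ'
    refine ⟨min r r', max C C', lt_min hr hr', le_max_of_le_left hC, fun j hj φ hφ y hy hyD v hv hvy σ hσ => ?_⟩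
    rcases Nat.le_succ_iff.1 hj with hj | rfl
    · exact (h j hj φ hφ y hy hyD v hv hvy σ (hσ.mono (Nat.le_succ m) (min_le_left _ _))).trans (le_max_left _ _)
    · exact (h' φ hφ y hy hyD v hv hvy σ (hσ.mono le_rfl (min_le_right _ _))).trans (le_max_right _ _)

theorem smoT_sheet (S : DA X Λ u D B Bad a Γ W α c₀ C₀ ρ δ) (hS : Shs X Λ u D a b E SS) {ν : Vd (k + 1)} (hν : ν ∈ E) {φ : Vd (k + 1) → MN N} (hφ : φ ∈ SS) {y₁ : Vd (k + 1)}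
    (hy₁ : y₁ ∈ Tb b E) (h0 : y₁ ∉ D) : SmoT X Λ u a ν (Tb b E) φ y₁ := by
  have G := S.geo
  have hX := G.cone
  have hsh := hS.sht φ hφ
  have hTs : ∀ y ∈ Tb b E, ∀ s : ℝ, y + (s : ℂ) • ν ∈ Tb b E := fun y hy s => tb_add hy (smul_mem_E hν s)
  have hTa : ∀ y ∈ Tb b E, ∀ z : ℂ, y + z • a ∈ Tb b E := fun y hy z => tb_add hy (hS.mem z)
  obtain ⟨δ₁, hδ₁, hy₁δ⟩ := G.exists_gd h0
  -- points of the cone over the values
  have hfib : ∀ y ∈ Tb b E, ∃ x ∈ X, pr x = φ y ∧ u x - y ∈ Λ := fun y hy => hS.fb4 hφ hy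
  have hm₀ : φ y₁ ∈ Fb X Λ u y₁ := hfib y₁ hy₁
  obtain ⟨χ, ρ₁, r₁, hr₁, hcap⟩ := exists_cap_at G h0 hm₀
  obtain ⟨x₀, hx₀, hx₀m, hx₀u⟩ := hm₀
  obtain ⟨c₁, hc₁, hc₁X, hc₁n⟩ := Pool.Agent.TG.exists_unit hX hx₀
  set v := c₁ • x₀ with hv
  have hvn : ‖v‖ = 1 := mem_sphere_zero_iff_norm.1 hc₁n
  have hvp : pr v = φ y₁ := by rw [hv, Pool.Agent.H62.EF.pr_smul x₀ hc₁, hx₀m]
  have hvU : v ∈ χ.U := (hcap.cap y₁ (mem_closedBall_self hr₁.le) v hc₁X (smul_mem_lat G.tor hx₀ hx₀u hc₁) (by rw [hvp, dist_self]; exact hr₁.le)).1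
  -- a ball around `v`
  obtain ⟨R₀, hR₀, hball⟩ : ∃ R₀ : ℝ, 0 < R₀ ∧ ∀ x ∈ ball v R₀, x ∈ χ.U ∧ ‖χ.q x‖ < ‖χ.q v‖ + 1 := by
    have h1 : ∀ᶠ x in 𝓝 v, x ∈ χ.U ∧ ‖χ.q x‖ < ‖χ.q v‖ + 1 :=
      Filter.Eventually.and (χ.isOpen_U.mem_nhds hvU) ((χ.q_an v hvU).continuousAt.norm.eventually_lt_const (by show ‖χ.q v‖ < ‖χ.q v‖ + 1; linarith))
    obtain ⟨R₀, hR₀, h⟩ := Metric.mem_nhds_iff.1 h1
    exact ⟨R₀, hR₀, fun x hx => h hx⟩
  set R := R₀ / 2 with hR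
  have hRpos : 0 < R := by positivity
  set M := ‖χ.q v‖ + 1 with hM
  have hM0 : 0 ≤ M := by positivity
  obtain ⟨ε₂, hε₂, hin⟩ := inner_near (N := N) (η := 1 / 2) (by norm_num)
  obtain ⟨ε₃, hε₃, hnv⟩ := nv_near (N := N) (η := R / 4) (by positivity)
  obtain ⟨ε₄, hε₄, hun⟩ := exists_unit_near (N := N) (η := R) hRpos
  -- the ball
  obtain ⟨r, hr, hbox⟩ : ∃ r : ℝ, 0 < r ∧ ∀ y ∈ Tb b E ∩ ball y₁ r, y ∈ closedBall y₁ r₁ ∧ y ∈ Gd D (δ₁ / 2) ∧ dist (φ y) (φ y₁) ≤ min (min r₁ ε₂) (min ε₄ (1 / 2)) := by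
    have h1 : ∀ᶠ y in 𝓝[Tb b E] y₁, y ∈ closedBall y₁ r₁ := mem_nhdsWithin_of_mem_nhds (closedBall_mem_nhds y₁ hr₁)
    have h2 : ∀ᶠ y in 𝓝[Tb b E] y₁, y ∈ ball y₁ (δ₁ / 2) := mem_nhdsWithin_of_mem_nhds (ball_mem_nhds y₁ (by positivity))
    have h3 : ∀ᶠ y in 𝓝[Tb b E] y₁, φ y ∈ closedBall (φ y₁) (min (min r₁ ε₂) (min ε₄ (1 / 2))) :=
      (hsh.cont y₁ hy₁ h0).tendsto (closedBall_mem_nhds _ (lt_min (lt_min hr₁ hε₂) (lt_min hε₄ (by norm_num))))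
    have h4 : ∀ᶠ y in 𝓝[Tb b E] y₁, y ∈ closedBall y₁ r₁ ∧ y ∈ Gd D (δ₁ / 2) ∧ dist (φ y) (φ y₁) ≤ min (min r₁ ε₂) (min ε₄ (1 / 2)) := by
      filter_upwards [h1, h2, h3] with y h4 h5 h6
      refine ⟨h4, ?_, h6⟩
      have h7 := gd_near hy₁δ (r := δ₁ / 2) (w := y) (by rw [← dist_eq_norm]; exact (mem_ball.1 h5).le)
      have e : δ₁ - δ₁ / 2 = δ₁ / 2 := by ring
      rwa [e] at h7
    obtain ⟨r, hr, h5⟩ := Metric.mem_nhdsWithin_iff.1 h4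
    exact ⟨r, hr, fun y hy => h5 ⟨hy.2, hy.1⟩⟩
  -- the points in the chart
  have hpt : ∀ y ∈ Tb b E ∩ ball y₁ r, ∀ x ∈ X, pr x = φ y → u x - y ∈ Λ →
      x ∈ χ.U ∧ χ.q x ∈ closedBall (0 : Vd (k + 2)) 1 ∧ ms y₁ ρ₁ (χ.q x) = y ∧ inner ℂ v x ≠ (0 : ℂ) := by
    intro y hy x hx hxp hxu
    obtain ⟨h1, -, h3⟩ := hbox y hy
    have h4 := hcap.cap _ h1 x hx hxu (by rw [hxp]; exact h3.trans ((min_le_left _ _).trans (min_le_left _ _)))
    refine ⟨h4.1, h4.2.1, h4.2.2, (hin v hvn x (ne_zero hX hx) ?_).1⟩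
    rw [hxp, hvp]
    exact h3.trans ((min_le_left _ _).trans (min_le_right _ _))
  set f : Vd (k + 1) → ℂ := fun y => χ.q (nv v (φ y)) 0 with hf
  have hfx : ∀ y ∈ Tb b E ∩ ball y₁ r, ∀ x ∈ X, pr x = φ y → u x - y ∈ Λ → f y = χ.q x 0 := by
    intro y hy x hx hxp hxu
    obtain ⟨h1, -, -, h2⟩ := hpt y hy x hx hxp hxu
    show χ.q (nv v (φ y)) 0 = χ.q x 0
    rw [← hxp, smt_q h2 h1]
  -- continuity
  have hcont : ContinuousOn f (Tb b E ∩ ball y₁ r) := by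
    intro y hy
    obtain ⟨x, hx, hxp, hxu⟩ := hfib y hy.1
    obtain ⟨h1, -, -, h2⟩ := hpt y hy x hx hxp hxu
    have hyD : y ∉ D := gd_notMem (by positivity) (hbox y hy).2.1
    have h3 : ContinuousWithinAt φ (Tb b E ∩ ball y₁ r) y := (hsh.cont y hy.1 hyD).mono Set.inter_subset_left
    have h4 : ContinuousWithinAt (fun y => nv v (φ y)) (Tb b E ∩ ball y₁ r) y := by
      have h5 : Tendsto (fun y' => 10 * dist (φ y') (φ y)) (𝓝[Tb b E ∩ ball y₁ r] y) (𝓝 0) := by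
        have h6 : Tendsto (fun y' => dist (φ y') (φ y)) (𝓝[Tb b E ∩ ball y₁ r] y) (𝓝 (dist (φ y) (φ y))) := h3.tendsto.dist tendsto_const_nhds
        rw [dist_self] at h6
        have h7 := h6.const_mul 10
        rwa [mul_zero] at h7
      refine tendsto_iff_norm_sub_tendsto_zero.2 (squeeze_zero' (Eventually.of_forall fun _ => norm_nonneg _) ?_ h5)
      filter_upwards [self_mem_nhdsWithin] with y' hy'
      refine nv_lip hvn ?_ ?_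
      · rw [hvp]
        exact (hbox y' hy').2.2.trans ((min_le_right _ _).trans (min_le_right _ _))
      · rw [hvp]
        exact (hbox y hy).2.2.trans ((min_le_right _ _).trans (min_le_right _ _))
    have h5 : ContinuousAt χ.q (nv v (φ y)) := by
      rw [← hxp, nv_pr h2]
      exact (χ.q_an _ (χ.smul_U x h1 _ (inv_ne_zero h2))).continuousAt
    have h6 : ContinuousWithinAt (fun y => χ.q (nv v (φ y))) (Tb b E ∩ ball y₁ r) y := h5.tendsto.comp h4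
    exact ((continuous_apply (0 : Fin (k + 2))).tendsto _).comp h6
  -- holomorphic in `z`
  have hol : ∀ y ∈ Tb b E ∩ ball y₁ r, DifferentiableAt ℂ (fun z : ℂ => f (y + z • a)) 0 := by
    intro y hy
    obtain ⟨F, ⟨hFd, hFX, hFu⟩, hFe⟩ := hsh.line y hy.1
    have hFp : ∀ z, pr (F z) = φ (y + z • a) := fun z => (congrFun hFe z).symm
    have hc : Continuous fun z : ℂ => y + z • a := by fun_prop
    have hev : ∀ᶠ z in 𝓝 (0 : ℂ), y + z • a ∈ ball y₁ r := hc.tendsto 0 (isOpen_ball.mem_nhds (by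
      show y + (0 : ℂ) • a ∈ ball y₁ r
      rw [zero_smul, add_zero]
      exact hy.2))
    have h1 : (fun z : ℂ => f (y + z • a)) =ᶠ[𝓝 0] fun z => χ.q (F z) 0 := by
      filter_upwards [hev] with z hz
      exact hfx _ ⟨hTa y hy.1 z, hz⟩ (F z) (hFX z) (hFp z) (hFu z)
    refine DifferentiableAt.congr_of_eventuallyEq ?_ h1
    have h2 : DifferentiableAt ℂ χ.q (F 0) := (χ.q_an (F 0) (hpt _ ⟨hTa y hy.1 0, hev.self_of_nhds⟩ (F 0) (hFX 0) (hFp 0) (hFu 0)).1).differentiableAt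
    have h3 : DifferentiableAt ℂ (fun z => χ.q (F z)) 0 := h2.comp 0 (hFd 0)
    exact differentiableAt_pi.1 h3 0
  -- the divided differences
  have hdd : ∀ m : ℕ, ∃ η C : ℝ, 0 < η ∧ ∀ y ∈ Tb b E ∩ ball y₁ r, ∀ S : Finset ℝ, (∀ s ∈ S, |s| ≤ η) → (∀ s ∈ S, y + (s : ℂ) • ν ∈ ball y₁ r) → S.card = m + 1 →
      ‖Pool.Agent.G3.A.dd S (fun s : ℝ => f (y + (s : ℂ) • ν))‖ ≤ C := by
    intro m
    obtain ⟨rd, C, hrd, hC, hddb⟩ := smt_ddb S hS hν (δ' := δ₁ / 2) (by positivity) m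
    obtain ⟨rc, K, hrc, hK, hcomp⟩ := dd_comp_le m hRpos hC
    obtain ⟨r₃, hr₃, hun3⟩ := hS.unif4 S.lg (δ' := δ₁ / 2) (by positivity) (lt_min hε₂ hε₃)
    have hν1 : 0 < ‖ν‖ + 1 := by positivity
    set η := min (min rd rc) (r₃ / (‖ν‖ + 1)) with hη
    have hη0 : 0 < η := lt_min (lt_min hrd hrc) (by positivity)
    have hle_d : η ≤ rd := (min_le_left _ _).trans (min_le_left _ _)
    have hle_c : η ≤ rc := (min_le_left _ _).trans (min_le_right _ _)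
    have hle_3 : η ≤ r₃ / (‖ν‖ + 1) := min_le_right _ _
    refine ⟨η, K * M, hη0, fun y hy S' hS' hSb hcard => ?_⟩
    refine smt_local (r := η) (P := fun s => y + (s : ℂ) • ν ∈ ball y₁ r) (fun σ hσ hσb => ?_) hS' hSb hcard
    obtain ⟨-, hyD, hyd⟩ := hbox y hy
    obtain ⟨x, hx, hxp, hxu⟩ := hfib y hy.1
    obtain ⟨c, hc, hcn, hcv⟩ := hun v hvn x (ne_zero hX hx) (by rw [hxp, hvp]; exact hyd.trans ((min_le_right _ _).trans (min_le_left _ _)))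
    set v' := c • x with hv'
    have hv'p : pr v' = φ y := by rw [hv', Pool.Agent.H62.EF.pr_smul x hc, hxp]
    have hsub : ball v' R ⊆ ball v R₀ := by
      intro w hw
      rw [mem_ball, dist_eq_norm] at hw ⊢
      have h1 := norm_add_le (w - v') (v' - v)
      rw [sub_add_sub_cancel] at h1
      have h2 : R + R = R₀ := by rw [hR]; ring
      linarith
    -- the nodes
    have hyσ : ∀ i ≤ m, y + (σ i : ℂ) • ν ∈ Tb b E ∩ ball y₁ r := fun i hi => ⟨hTs y hy.1 _, hσb i hi⟩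
    have hdist : ∀ i ≤ m, dist (φ (y + (σ i : ℂ) • ν)) (pr v') ≤ min ε₂ ε₃ := by
      intro i hi
      rw [hv'p]
      refine hun3 φ hφ y hy.1 hyD _ (hTs y hy.1 _) ?_
      rw [add_sub_cancel_left, norm_smul, Complex.norm_real]
      have h1 := hσ.le i hi
      rw [← Real.norm_eq_abs] at h1
      calc ‖σ i‖ * ‖ν‖ ≤ r₃ / (‖ν‖ + 1) * (‖ν‖ + 1) := mul_le_mul (h1.trans hle_3) (by linarith) (norm_nonneg _) (by positivity)
        _ = r₃ := by field_simp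
    have hb1 : ∀ j ≤ m, ‖dd j σ fun s : ℝ => nv v' (φ (y + (s : ℂ) • ν))‖ ≤ C := fun j hj =>
      hddb j hj φ hφ y hy.1 hyD v' hcn hv'p σ (hσ.mono le_rfl hle_d)
    have hb2 : ∀ i ≤ m, (fun s : ℝ => nv v' (φ (y + (s : ℂ) • ν))) (σ i) ∈ ball v' (R / 4) := by
      intro i hi
      rw [mem_ball, dist_eq_norm]
      exact hnv v' hcn _ ((hdist i hi).trans (min_le_right _ _))
    have hΨd : DifferentiableOn ℂ (fun p : EN N × ℂ => χ.q p.1 0) (ball v' R ×ˢ ball (0 : ℂ) R) := by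
      rintro ⟨w, ζ⟩ ⟨hw, -⟩
      have h1 : DifferentiableAt ℂ χ.q w := (χ.q_an w (hball w (hsub hw)).1).differentiableAt
      have h2 : DifferentiableAt ℂ (fun p : EN N × ℂ => χ.q p.1) (w, ζ) := DifferentiableAt.comp (w, ζ) (g := χ.q) (f := Prod.fst) h1 differentiableAt_fst
      exact (differentiableAt_pi.1 h2 0).differentiableWithinAt
    have hΨM : ∀ p ∈ ball v' R ×ˢ ball (0 : ℂ) R, ‖(fun p : EN N × ℂ => χ.q p.1 0) p‖ ≤ M := by
      rintro ⟨w, ζ⟩ ⟨hw, -⟩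
      exact (norm_le_pi_norm (χ.q w) 0).trans (hball w (hsub hw)).2.le
    have h1 := hcomp (EN N) ℂ (fun p : EN N × ℂ => χ.q p.1 0) v' M hM0 hΨd hΨM σ (fun s : ℝ => nv v' (φ (y + (s : ℂ) • ν))) (hσ.mono le_rfl hle_c) hb2 hb1 m le_rfl
    have h2 : dd m σ (fun s : ℝ => f (y + (s : ℂ) • ν)) = dd m σ (fun s : ℝ => (fun p : EN N × ℂ => χ.q p.1 0) (nv v' (φ (y + (s : ℂ) • ν)), (s : ℂ))) := by
      refine dd_congr fun i hi => ?_
      obtain ⟨xi, hxi, hxip, hxiu⟩ := hfib _ (hyσ i hi).1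
      have h3 := hfx _ (hyσ i hi) xi hxi hxip hxiu
      have h4 : inner ℂ v' xi ≠ (0 : ℂ) := (hin v' hcn xi (ne_zero hX hxi) (by
        have h5 := hdist i hi
        rw [← hxip] at h5
        exact h5.trans (min_le_left _ _))).1
      have h5 := (hpt _ (hyσ i hi) xi hxi hxip hxiu).1
      show f (y + (σ i : ℂ) • ν) = χ.q (nv v' (φ (y + (σ i : ℂ) • ν))) 0
      rw [h3, ← hxip, smt_q h4 h5]
    rw [h2]
    exact h1
  have hBDT : BDT (Tb b E) ν a y₁ r f := ⟨hcont, hol, bdt_of_loc hTs hdd⟩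
  obtain ⟨w, hw0, hwb, hwd⟩ := bdt_jet hBDT hTs hTa
  -- the point of the chart
  have hcz : ∀ y ∈ Tb b E ∩ ball y₁ r, ∀ x ∈ X, pr x = φ y → u x - y ∈ Λ → cy y₁ ρ₁ (w 0 y) y = χ.q x := by
    intro y hy x hx hxp hxu
    obtain ⟨-, -, h3, -⟩ := hpt y hy x hx hxp hxu
    have hρ : (ρ₁ : ℂ) ≠ 0 := by exact_mod_cast hcap.str.pos.ne'
    funext i
    refine Fin.cases ?_ (fun i => ?_) i
    · show w 0 y = χ.q x 0
      rw [hw0]
      exact hfx y hy x hx hxp hxu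
    · show ((ρ₁ : ℂ)⁻¹ • (y - y₁)) i = χ.q x i.succ
      have h4 : y - y₁ = (ρ₁ : ℂ) • (fun i : Fin (k + 1) => χ.q x i.succ) := by
        have h5 := h3.symm
        unfold ms at h5
        rw [h5, add_sub_cancel_left]
        rfl
      rw [h4, smul_smul, inv_mul_cancel₀ hρ, one_smul]
  refine ⟨χ, y₁, ρ₁, w, r, hr, hcap.str, fun j => (hwb j).cont, hwd, fun j => (hwb j).hol, fun y hy => ?_, fun y hy => ?_⟩
  · obtain ⟨x, hx, hxp, hxu⟩ := hfib y hy.1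
    rw [hcz y hy x hx hxp hxu]
    exact closedBall_subset_ball (by norm_num) (hpt y hy x hx hxp hxu).2.1
  · obtain ⟨x, hx, hxp, hxu⟩ := hfib y hy.1
    rw [hcz y hy x hx hxp hxu]
    obtain ⟨-, c, hc, hcx⟩ := χ.surj x hx (hpt y hy x hx hxp hxu).1
    rw [← hxp]
    conv_lhs => rw [hcx]
    rw [Pool.Agent.H62.EF.pr_smul _ hc]

end Pool.Agent.G4.R
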